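import Pool.Agent.Helper88.OR.ExDefs
import Pool.Agent.Helper16.TR.Q9c
import Pool.Agent.Helper21.TR.EigDiag

/-!
# Sharpness: the middle exterior power of the standard representation of `GL_2n`, `n` even

The representation carries an invariant symmetric form (up to similitudes), and its image does not
contain the special orthogonal group if `n ≥ 4`.
-/

open Module MTPairs

namespace OR.FW

open TR TR.W3 TR.Wdg

section one
variable {K : Type*} [Field K] {m : Type*} [Fintype m] [DecidableEq m]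

/-- The case `g = 1`. -/
lemma isBadEig_one {u : Matrix.GeneralLinearGroup m K} {r : ℕ} (hr : 0 < r)
    (hq : IsQuadraticOn u ⊤ r) :
    IsBadEig u 1 ⊤ r (if 2 * r = Fintype.card m then 0 else 1) := by
  classical
  have hg : ((1 : Matrix.GeneralLinearGroup m K) : Matrix m m K) =
      Matrix.diagonal (fun _ => (1 : K)) := by
    rw [Units.val_one, Matrix.diagonal_one]
  have hmax : ∀ a : K, Module.End.maxGenEigenspace
      ((1 : Matrix.GeneralLinearGroup m K) : Matrix m m K).mulVecLin a =
      if a = 1 then ⊤ else ⊥ := by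
    intro a
    rw [hg, maxGen_diagonal]
    split_ifs with ha
    · rw [eq_top_iff]
      intro v _ p hp
      exact absurd (Finset.mem_filter.mpr ⟨Finset.mem_univ p, ha.symm⟩) hp
    · rw [eq_bot_iff]
      intro v hv
      rw [Submodule.mem_bot]
      funext p
      exact hv p (fun hp => ha (Finset.mem_filter.mp hp).2.symm)
  set N := (u : Matrix m m K) - 1 with hN
  have hrange : finrank K ↥((⊤ : Submodule K (m → K)).map N.mulVecLin) = r := hq.2
  have hdim := LinearMap.finrank_range_add_finrank_ker N.mulVecLin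
  rw [← Submodule.map_top, hrange, Module.finrank_fintype_fun_eq_card] at hdim
  have hle : r ≤ finrank K ↥(LinearMap.ker N.mulVecLin) := by
    rw [← hrange]
    apply Submodule.finrank_mono
    rintro _ ⟨v, hv, rfl⟩
    rw [LinearMap.mem_ker, Matrix.mulVecLin_apply, Matrix.mulVecLin_apply]
    exact hq.1 v hv
  have hm1 : mlt (u : Matrix m m K) (1 : Matrix.GeneralLinearGroup m K) ⊤ 1 =
      Fintype.card m - 2 * r := by
    rw [mlt, hmax, if_pos rfl, top_inf_eq, inf_top_eq, inf_top_eq, ← hN, hrange]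
    omega
  have hm0 : ∀ a : K, a ≠ 1 →
      mlt (u : Matrix m m K) (1 : Matrix.GeneralLinearGroup m K) ⊤ a = 0 := by
    intro a ha
    rw [mlt, hmax, if_neg ha, inf_bot_eq, inf_bot_eq, finrank_bot]
  refine ⟨hr, hq, ?_, ⟨1, ?_⟩, ?_⟩
  · intro a b v _ w _ hv hw h1 h2 n _ _
    rw [Units.val_one, Matrix.one_mulVec] at h1 h2
    have h3 : ∀ (c : K) (v : m → K), v ≠ 0 → v = c • v → c = 1 := by
      intro c v hv h
      have h4 : (1 - c) • v = 0 := by rw [sub_smul, one_smul, ← h, sub_self]
      exact (sub_eq_zero.mp ((smul_eq_zero.mp h4).resolve_right hv)).symm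
    rw [h3 a v hv h1, h3 b w hw h2]
  · intro v _
    rw [hmax, if_pos rfl]
    trivial
  · have hset : {a : K | mlt (u : Matrix m m K) (1 : Matrix.GeneralLinearGroup m K) ⊤ a ≠ 0} =
        if 2 * r = Fintype.card m then ∅ else {1} := by
      split_ifs with h
      · rw [Set.eq_empty_iff_forall_notMem]
        intro a ha
        by_cases h1 : a = 1
        · apply ha
          rw [h1, hm1, h, Nat.sub_self]
        · exact ha (hm0 a h1)
      · ext a
        rw [Set.mem_ofPred_eq, Set.mem_singleton_iff]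
        constructor
        · intro ha
          by_contra h1
          exact ha (hm0 a h1)
        · rintro rfl
          rw [hm1]
          omega
    rw [hset]
    split_ifs
    · exact Set.ncard_empty K
    · exact Set.ncard_singleton 1

lemma choose_strict {m : ℕ} (hm : 3 ≤ m) :
    2 * (2 * m - 2).choose (m - 1) < (2 * m).choose m := by
  obtain ⟨n, rfl⟩ : ∃ n, m = n + 2 := ⟨m - 2, by omega⟩
  have e1 : (2 * (n + 2)).choose (n + 2) =
      (2 * n + 3).choose (n + 1) + (2 * n + 3).choose (n + 2) := by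
    rw [show 2 * (n + 2) = (2 * n + 3) + 1 by ring]
    exact Nat.choose_succ_succ _ _
  have e2 : (2 * n + 3).choose (n + 2) = (2 * n + 3).choose (n + 1) := by
    rw [← Nat.choose_symm_of_eq_add (show 2 * n + 3 = (n + 1) + (n + 2) by ring)]
  have e3 : (2 * n + 3).choose (n + 1) = (2 * n + 2).choose n + (2 * n + 2).choose (n + 1) :=
    Nat.choose_succ_succ _ _
  have e4 : 0 < (2 * n + 2).choose n := Nat.choose_pos (by omega)
  rw [e1, e2, e3, show 2 * (n + 2) - 2 = 2 * n + 2 by omega, show n + 2 - 1 = n + 1 by omega]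
  omega

end one

section form
variable {K : Type*} [Field K] {m : ℕ}

lemma ep_compl_even (hm : Even m) (S : Finset (Fin (2 * m))) : ep K S * ep K Sᶜ = 1 := by
  unfold ep
  rw [Finset.prod_mul_prod_compl, prod_sign, hm.neg_one_pow]

lemma ep_compl_eq (hm : Even m) (S : Finset (Fin (2 * m))) : ep K Sᶜ = ep K S := by
  have h1 := ep_compl_even (K := K) hm S
  have h2 := ep_sq (K := K) S
  linear_combination (ep K S) * h1 - (ep K Sᶜ) * h2

lemma Jw_sq_even (hm : Even m) : Jw K m * Jw K m = 1 := by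
  ext S T
  rw [Jw_mul, Jw, cp_cp, Matrix.one_apply]
  by_cases h : S = T
  · subst h
    rw [if_pos rfl, if_pos rfl]
    exact ep_compl_even hm S.1
  · rw [if_neg (Ne.symm h), if_neg h]; simp

lemma Jw_symm (hm : Even m) : (Jw K m).transpose = Jw K m := by
  ext S T
  rw [Matrix.transpose_apply, Jw, Jw]
  by_cases h : T = cp S
  · rw [if_pos h, if_pos (cp_eq.mp h), h]
    exact ep_compl_eq hm S.1
  · rw [if_neg h, if_neg (fun h' => h (cp_eq.mpr h'))]

lemma Jw_det_even (hm : Even m) : (Jw K m).det ≠ 0 := by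
  intro h0
  have := congrArg Matrix.det (Jw_sq_even (K := K) hm)
  rw [Matrix.det_mul, h0, zero_mul, Matrix.det_one] at this
  exact zero_ne_one this

/-- Similitudes, for groups generated by cocharacters. -/
lemma gen_sim {m : Type*} [Fintype m] [DecidableEq m] {J : Matrix m m K} (hdet : J.det ≠ 0)
    {Λ : Set (Matrix m m K)} (hΛ : ∀ π ∈ Λ, π * π = π)
    (hΛJ : ∀ π ∈ Λ, π.transpose * J + J * π = J) (g : Matrix.GeneralLinearGroup m K)
    (hg : g ∈ GenG Λ) :
    ∃ c : K, (g : Matrix m m K).transpose * J * (g : Matrix m m K) = c • J := by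
  have hle : GenG Λ ≤ Sim J := by
    apply GenG_le (Sim_closed hdet)
    intro π hπ
    refine ⟨hΛ π hπ, fun t ht => ?_⟩
    refine ⟨⟨t • π + (1 - π), t⁻¹ • π + (1 - π), torus_mul (hΛ π hπ) ht, ?_⟩, ?_, rfl⟩
    · have := torus_mul (hΛ π hπ) (inv_ne_zero ht)
      rwa [inv_inv] at this
    · exact ⟨t, ht, torus_sim (hΛ π hπ) (hΛJ π hπ) t⟩
  obtain ⟨c, -, hc⟩ := hle hg
  exact ⟨c, hc⟩

/-- An element of the special orthogonal group which does not normalise the Lie algebra. -/
lemma exists_not_nor_even (hm : Even m) (h4 : 4 ≤ m) :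
    ∃ g : Matrix.GeneralLinearGroup (Ix (Fin (2 * m)) m) K,
      (g : Matrix (Ix (Fin (2 * m)) m) (Ix (Fin (2 * m)) m) K).transpose * Jw K m *
        (g : Matrix (Ix (Fin (2 * m)) m) (Ix (Fin (2 * m)) m) K) = Jw K m ∧
      (g : Matrix (Ix (Fin (2 * m)) m) (Ix (Fin (2 * m)) m) K).det = 1 ∧
      g ∉ Nor (gl K (Fin (2 * m)) m) := by
  obtain ⟨S, -, hS⟩ : ∃ S : Finset (Fin (2 * m)), S ⊆ Finset.univ ∧ S.card = m :=
    Finset.exists_subset_card_eq (by rw [Finset.card_univ, Fintype.card_fin]; omega)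
  -- elements `x ≠ x'` of `S`, `y ≠ y'` outside
  obtain ⟨x, hx, x', hx', hxx⟩ : ∃ x ∈ S, ∃ x' ∈ S, x ≠ x' :=
    Finset.one_lt_card.mp (by omega)
  obtain ⟨y, hy, y', hy', hyy⟩ : ∃ y ∈ Sᶜ, ∃ y' ∈ Sᶜ, y ≠ y' :=
    Finset.one_lt_card.mp (by rw [Finset.card_compl, Fintype.card_fin]; omega)
  rw [Finset.mem_compl] at hy hy'
  have hT : (insert y (S.erase x)).card = m := by
    rw [Finset.card_insert_of_notMem (fun h => hy (Finset.mem_of_mem_erase h)),
      Finset.card_erase_add_one hx, hS]
  have hx'T : x' ∈ insert y (S.erase x) :=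
    Finset.mem_insert_of_mem (Finset.mem_erase.mpr ⟨hxx.symm, hx'⟩)
  have hy'T : y' ∉ insert y (S.erase x) := by
    rw [Finset.mem_insert]
    rintro (h | h)
    · exact hyy h.symm
    · exact hy' (Finset.mem_of_mem_erase h)
  have hR : (insert y' ((insert y (S.erase x)).erase x')).card = m := by
    rw [Finset.card_insert_of_notMem (fun h => hy'T (Finset.mem_of_mem_erase h)),
      Finset.card_erase_add_one hx'T, hT]
  set S0 : Ix (Fin (2 * m)) m := ⟨S, hS⟩ with hS0
  set T0 : Ix (Fin (2 * m)) m := ⟨insert y (S.erase x), hT⟩ with hT0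
  set R0 : Ix (Fin (2 * m)) m := ⟨insert y' ((insert y (S.erase x)).erase x'), hR⟩ with hR0
  have hy'R : y' ∈ R0.1 := Finset.mem_insert_self _ _
  have hRT : R0 ≠ T0 := by
    intro h
    rw [h] at hy'R
    exact hy'T hy'R
  have hRS : R0 ≠ S0 := by
    intro h
    rw [h] at hy'R
    exact hy' hy'R
  have hTS : T0 ≠ S0 := by
    intro h
    have : y ∈ T0.1 := Finset.mem_insert_self _ _
    rw [h] at this
    exact hy this
  have hx'T0 : x' ∈ T0.1 := hx'T
  have hTcS : T0 ≠ cp S0 := by
    intro h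
    rw [h] at hx'T0
    exact (Finset.mem_compl.mp hx'T0) hx'
  have hcS : cp S0 ≠ S0 := by
    intro h
    have : y ∈ (cp S0).1 := Finset.mem_compl.mpr hy
    rw [h] at this
    exact hy this
  have hcT : cp T0 ≠ T0 := by
    intro h
    have h1 : x' ∈ (cp T0).1 := by rw [h]; exact hx'T0
    exact (Finset.mem_compl.mp h1) hx'T0
  have hScT : S0 ≠ cp T0 := fun h => hTcS (cp_eq.mpr h)
  have hcc : cp S0 ≠ cp T0 := fun h => hTS (by rw [← cp_cp T0, ← h, cp_cp])
  set a : K := ep K S with ha
  set b : K := -ep K T0.1 with hb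
  have ha0 : a ≠ 0 := by
    intro h
    have := ep_sq (K := K) S
    rw [← ha, h, mul_zero] at this
    exact zero_ne_one this
  set N : Matrix (Ix (Fin (2 * m)) m) (Ix (Fin (2 * m)) m) K :=
    Matrix.single T0 (cp S0) a + Matrix.single S0 (cp T0) b with hN
  have hsq : N * N = 0 := by
    rw [hN, add_mul, mul_add, mul_add,
      Matrix.single_mul_single_of_ne _ _ _ _ (Ne.symm hTcS),
      Matrix.single_mul_single_of_ne _ _ _ _ hcS,
      Matrix.single_mul_single_of_ne _ _ _ _ hcT,
      Matrix.single_mul_single_of_ne _ _ _ _ (Ne.symm hScT)]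
    simp
  have e1 : N.transpose * Jw K m = Matrix.single (cp S0) (cp T0) (a * ep K T0.1) +
      Matrix.single (cp T0) (cp S0) (b * ep K S) := by
    rw [hN, Matrix.transpose_add, Matrix.transpose_single, Matrix.transpose_single, add_mul]
    have key : ∀ (A B : Ix (Fin (2 * m)) m) (c : K),
        Matrix.single A B c * Jw K m = Matrix.single A (cp B) (c * ep K B.1) := by
      intro A B c
      ext U V
      rw [mul_Jw, Matrix.single_apply, Matrix.single_apply]
      by_cases hV : cp B = V
      · subst hV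
        rw [cp_cp]
        by_cases hU : A = U
        · rw [if_pos ⟨hU, rfl⟩, if_pos ⟨hU, rfl⟩]
        · rw [if_neg (fun h => hU h.1), if_neg (fun h => hU h.1), zero_mul]
      · have hV' : B ≠ cp V := fun h => hV (by rw [h, cp_cp])
        rw [if_neg (fun h => hV' h.2), if_neg (fun h => hV h.2), zero_mul]
    rw [key, key]
  have e2 : Jw K m * N = Matrix.single (cp T0) (cp S0) (ep K (cp T0).1 * a) +
      Matrix.single (cp S0) (cp T0) (ep K (cp S0).1 * b) := by
    rw [hN, mul_add]
    have key : ∀ (A B : Ix (Fin (2 * m)) m) (c : K),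
        Jw K m * Matrix.single A B c = Matrix.single (cp A) B (ep K (cp A).1 * c) := by
      intro A B c
      ext U V
      rw [Jw_mul, Matrix.single_apply, Matrix.single_apply]
      by_cases hU : cp A = U
      · subst hU
        rw [cp_cp]
        by_cases hV : B = V
        · rw [if_pos ⟨rfl, hV⟩, if_pos ⟨rfl, hV⟩]
        · rw [if_neg (fun h => hV h.2), if_neg (fun h => hV h.2), mul_zero]
      · have hU' : A ≠ cp U := fun h => hU (by rw [h, cp_cp])
        rw [if_neg (fun h => hU' h.1), if_neg (fun h => hU h.1), mul_zero]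
    rw [key, key]
  have e3 : N.transpose * Jw K m + Jw K m * N = 0 := by
    have c1 : ep K (cp T0).1 = ep K T0.1 := ep_compl_eq hm T0.1
    have c2 : ep K (cp S0).1 = ep K S := ep_compl_eq hm S
    rw [e1, e2, c1, c2]
    have : Matrix.single (cp S0) (cp T0) (a * ep K T0.1) +
        Matrix.single (cp T0) (cp S0) (b * ep K S) +
        (Matrix.single (cp T0) (cp S0) (ep K T0.1 * a) +
          Matrix.single (cp S0) (cp T0) (ep K S * b)) =
        Matrix.single (cp S0) (cp T0) (a * ep K T0.1 + ep K S * b) +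
        Matrix.single (cp T0) (cp S0) (b * ep K S + ep K T0.1 * a) := by
      rw [Matrix.single_add, Matrix.single_add]; abel
    rw [this]
    have h1 : a * ep K T0.1 + ep K S * b = 0 := by rw [ha, hb]; ring
    have h2 : b * ep K S + ep K T0.1 * a = 0 := by rw [ha, hb]; ring
    rw [h1, h2, Matrix.single_zero, Matrix.single_zero, add_zero]
  let g : Matrix.GeneralLinearGroup (Ix (Fin (2 * m)) m) K :=
    ⟨1 + N, 1 - N,
      by
        have e : (1 + N) * (1 - N) = 1 - N * N := by noncomm_ring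
        rw [e, hsq, sub_zero],
      by
        have e : (1 - N) * (1 + N) = 1 - N * N := by noncomm_ring
        rw [e, hsq, sub_zero]⟩
  refine ⟨g, ?_, ?_, ?_⟩
  · change (1 + N).transpose * Jw K m * (1 + N) = _
    have e4 : N.transpose * Jw K m * N = 0 := by
      rw [eq_neg_of_add_eq_zero_left e3, neg_mul, mul_assoc, hsq, mul_zero, neg_zero]
    have e5 : (1 + N).transpose * Jw K m * (1 + N) = Jw K m + (N.transpose * Jw K m + Jw K m * N) +
        N.transpose * Jw K m * N := by
      rw [Matrix.transpose_add, Matrix.transpose_one]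
      noncomm_ring
    rw [e5, e3, e4, add_zero, add_zero]
  · change (1 + N).det = 1
    have e : 1 + N = Matrix.transvection T0 (cp S0) a * Matrix.transvection S0 (cp T0) b := by
      unfold Matrix.transvection
      rw [mul_add, add_mul, add_mul, mul_one, one_mul, mul_one,
        Matrix.single_mul_single_of_ne _ _ _ _ hcS, hN, add_zero, add_assoc]
    rw [e, Matrix.det_mul, Matrix.det_transvection_of_ne _ _ hTcS,
      Matrix.det_transvection_of_ne _ _ hScT, one_mul]
  · intro hg
    have hent : ∀ i j, (cp S0).1 ≠ insert j (R0.1.erase i) := by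
      intro i j h
      have hcard : 0 < (((S.erase x).erase x').erase i).card := by
        have h1 := Finset.pred_card_le_card_erase (s := (S.erase x).erase x') (a := i)
        have h2 := Finset.card_erase_of_mem hx
        have h3 := Finset.card_erase_of_mem (s := S.erase x) (a := x')
          (Finset.mem_erase.mpr ⟨hxx.symm, hx'⟩)
        omega
      obtain ⟨z, hz⟩ := Finset.card_pos.mp hcard
      have hz1 := Finset.mem_erase.mp hz
      have hz2 := Finset.mem_erase.mp hz1.2
      have hz3 := Finset.mem_erase.mp hz2.2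
      have : z ∈ (cp S0).1 := by
        rw [h]
        apply Finset.mem_insert_of_mem
        rw [Finset.mem_erase]
        refine ⟨hz1.1, Finset.mem_insert_of_mem (Finset.mem_erase.mpr ⟨hz2.1, ?_⟩)⟩
        exact Finset.mem_insert_of_mem hz2.2
      exact (Finset.mem_compl.mp this) hz3.2
    have hyx' : y' ≠ x' := fun h => hy' (h ▸ hx')
    have h1 := (hg _ (M_mem (K := K) (k := m) y' x')).1
    have h2 := gl_entry hent h1
    have h3 : (M K m y' x') R0 (cp S0) = 0 := gl_entry hent (M_mem y' x')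
    have h4 : (M K m y' x') R0 T0 ≠ 0 := by
      rw [M_apply, if_pos]
      · exact mul_ne_zero (sg_ne _ _) (sg_ne _ _)
      · have hi : y' ∉ (insert y (S.erase x)).erase x' := fun h =>
          hy'T (Finset.mem_of_mem_erase h)
        refine ⟨Finset.mem_insert_self _ _, ?_, ?_⟩
        · change x' ∉ (insert y' ((insert y (S.erase x)).erase x')).erase y'
          rw [Finset.erase_insert hi]
          exact Finset.notMem_erase _ _
        · change insert y (S.erase x) =
            insert x' ((insert y' ((insert y (S.erase x)).erase x')).erase y')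
          rw [Finset.erase_insert hi, Finset.insert_erase hx'T]
    change ((1 + N) * M K m y' x' * (1 - N)) R0 (cp S0) = 0 at h2
    have e : (1 + N) * M K m y' x' * (1 - N) = M K m y' x' + N * M K m y' x' -
        M K m y' x' * N - N * (M K m y' x' * N) := by noncomm_ring
    have hrow : ∀ X : Matrix (Ix (Fin (2 * m)) m) (Ix (Fin (2 * m)) m) K,
        (N * X) R0 (cp S0) = 0 := by
      intro X
      rw [hN, add_mul, Matrix.add_apply, Matrix.single_mul_apply_of_ne _ _ _ _ _ hRT,
        Matrix.single_mul_apply_of_ne _ _ _ _ _ hRS, add_zero]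
    have hcol : (M K m y' x' * N) R0 (cp S0) = (M K m y' x') R0 T0 * a := by
      rw [hN, mul_add, Matrix.add_apply, Matrix.mul_single_apply_same,
        Matrix.mul_single_apply_of_ne _ _ _ _ _ hcc, add_zero]
    rw [e, Matrix.sub_apply, Matrix.sub_apply, Matrix.add_apply, h3, hrow, hrow, hcol] at h2
    apply mul_ne_zero h4 ha0
    linear_combination -h2

end form

section final

variable (K : Type*) [Field K] [CharZero K] {n : ℕ}

/-- The pair. -/
lemma isOrthPair (hn : Even n) (i0 : Fin (2 * n)) :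
    IsOrthPair ⊥ (Jw K n) (GenG (Lam K (Fin (2 * n)) n)) (M K n i0 i0) := by
  refine ⟨Jw_symm hn, Jw_det_even hn, gen_sim (Jw_det_even hn) Lam_idem Lam_lag,
    GenG_closed _, ?_, ?_, ?_, ?_, ?_⟩
  · intro U hU
    apply irr
    intro π hπ v hv
    obtain ⟨g, hg, hgt⟩ := (GenG_cochar (Lam_idem π hπ) hπ).2 2 two_ne_zero
    have h1 := hU g hg v hv
    have h2 : (g : Matrix (Ix (Fin (2 * n)) n) (Ix (Fin (2 * n)) n) K).mulVec v =
        π.mulVec v + v := by
      rw [hgt]
      have : (2 : K) • π + (1 - π) = π + 1 := by rw [two_smul]; abel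
      rw [this, Matrix.add_mulVec, Matrix.one_mulVec]
    rw [h2] at h1
    have := U.sub_mem h1 hv
    rwa [add_sub_cancel_right] at this
  · intro θ hθ
    rw [Subgroup.mem_bot] at hθ
    subst hθ
    exact ⟨RingEquiv.refl K, fun v w => rfl, fun c v => rfl⟩
  · intro θ hθ g hg
    rw [Subgroup.mem_bot] at hθ
    subst hθ
    exact ⟨g, hg, fun v => rfl⟩
  · exact GenG_cochar (M_diag_mul _ _) (Or.inl ⟨i0, rfl⟩)
  · intro H hH hall
    apply GenG_le hH
    intro P hP
    obtain ⟨g, hg, rfl⟩ := conj_all i0 hP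
    apply hall
    have hg1 : ((g⁻¹ : Matrix.GeneralLinearGroup (Ix (Fin (2 * n)) n) K) :
        Matrix (Ix (Fin (2 * n)) n) (Ix (Fin (2 * n)) n) K) *
        (g : Matrix (Ix (Fin (2 * n)) n) (Ix (Fin (2 * n)) n) K) = 1 := by
      rw [← Units.val_mul, inv_mul_cancel, Units.val_one]
    refine ⟨1, Subgroup.one_mem _, g, hg, fun v => ?_⟩
    rw [Equiv.Perm.one_apply, Equiv.Perm.one_apply, Matrix.mulVec_mulVec,
      Matrix.mulVec_mulVec, mul_assoc, hg1, mul_one]

/-- It does not contain the special orthogonal group. -/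
lemma not_containsSO (hn : Even n) (hn4 : 4 ≤ n) :
    ¬ ContainsSO (Jw K n) (GenG (Lam K (Fin (2 * n)) n)) := by
  intro hfull
  obtain ⟨g, hg, hdet, hgd⟩ := exists_not_nor_even (K := K) hn hn4
  apply hgd
  exact GenG_le (Nor_closed _) Lam_nor (hfull g hg hdet)

/-- The bad place with one eigenvalue. -/
lemma bad_one (hn3 : 3 ≤ n) {i0 i1 : Fin (2 * n)} (h01 : i0 ≠ i1) :
    ∃ u ∈ GenG (Lam K (Fin (2 * n)) n), ∃ g ∈ GenG (Lam K (Fin (2 * n)) n),
      IsBadEig u g ⊤ ((2 * n - 2).choose (n - 1)) 1 := by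
  refine ⟨un K n h01, un_mem h01, 1, Subgroup.one_mem _, ?_⟩
  have hlt := choose_strict hn3
  have hcard : Fintype.card (Ix (Fin (2 * n)) n) = (2 * n).choose n := by
    rw [Fintype.card_finset_len, Fintype.card_fin]
  have h1 := isBadEig_one (u := un K n h01) (r := (2 * n - 2).choose (n - 1))
    (Nat.choose_pos (by omega)) ⟨?_, ?_⟩
  · rwa [if_neg (by rw [hcard]; omega)] at h1
  · intro v _
    have e : (un K n h01 : Matrix _ _ K) - 1 = M K n i0 i1 := by
      change 1 + M K n i0 i1 - 1 = _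
      abel
    rw [e, Matrix.mulVec_mulVec, M_sq h01, Matrix.zero_mulVec]
  · have e : (un K n h01 : Matrix _ _ K) - 1 = M K n i0 i1 := by
      change 1 + M K n i0 i1 - 1 = _
      abel
    rw [e, rank_M h01 (by omega), Fintype.card_fin]

/-- The bad place with two eigenvalues. -/
lemma bad_two (hn3 : 3 ≤ n) {i0 i1 : Fin (2 * n)} (h01 : i0 ≠ i1) :
    ∃ u ∈ GenG (Lam K (Fin (2 * n)) n), ∃ g ∈ GenG (Lam K (Fin (2 * n)) n),
      IsBadEig u g ⊤ ((2 * n - 2).choose (n - 1)) 2 := by
  classical
  have hP0 : M K n i0 i0 ∈ Lam K (Fin (2 * n)) n := Or.inl ⟨i0, rfl⟩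
  have hP1 : M K n i1 i1 ∈ Lam K (Fin (2 * n)) n := Or.inl ⟨i1, rfl⟩
  obtain ⟨g0, hg0, hg0'⟩ := (GenG_cochar (Lam_idem _ hP0) hP0).2 2 two_ne_zero
  obtain ⟨g1, hg1, hg1'⟩ := (GenG_cochar (Lam_idem _ hP1) hP1).2 2 two_ne_zero
  have hdiag : ∀ a : Fin (2 * n), (2 : K) • M K n a a + (1 - M K n a a) =
      Matrix.diagonal (fun S : Ix (Fin (2 * n)) n => if a ∈ S.1 then (2 : K) else 1) := by
    intro a
    rw [M_same, ← Matrix.diagonal_one, ← Matrix.diagonal_smul, Matrix.diagonal_sub,
      Matrix.diagonal_add]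
    congr 1
    funext S
    by_cases h : a ∈ S.1
    · simp [h]
    · simp [h]
  let e : Ix (Fin (2 * n)) n → ℤ := fun S =>
    (if i0 ∈ S.1 then 1 else 0) + (if i1 ∈ S.1 then 1 else 0)
  have hg : ((g0 * g1 : Matrix.GeneralLinearGroup (Ix (Fin (2 * n)) n) K) : Matrix _ _ K) =
      Matrix.diagonal (fun S => (2 : K) ^ e S) := by
    rw [Units.val_mul, hg0', hg1', hdiag, hdiag, Matrix.diagonal_mul_diagonal]
    congr 1
    funext S
    simp only [e]
    by_cases h0 : i0 ∈ S.1 <;> by_cases h1 : i1 ∈ S.1 <;>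
      simp [h0, h1]
    norm_num [zpow_ofNat]
  refine ⟨un K n h01, un_mem h01, g0 * g1, Subgroup.mul_mem _ hg0 hg1, ?_⟩
  have eu : (un K n h01 : Matrix (Ix (Fin (2 * n)) n) (Ix (Fin (2 * n)) n) K) - 1 =
      M K n i0 i1 := by
    change 1 + M K n i0 i1 - 1 = _
    abel
  refine isBadEig_of_diag e hg
    (Finset.univ.filter fun S : Ix (Fin (2 * n)) n => ¬ (i1 ∈ S.1 ∧ i0 ∉ S.1))
    (Finset.univ.filter fun S : Ix (Fin (2 * n)) n => i0 ∈ S.1 ∧ i1 ∉ S.1)
    ?_ ?_ ?_ (e0 := 1) ?_ (Nat.choose_pos (by omega)) ?_ ?_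
  · rw [eu]; exact Wdg.ker_M h01
  · rw [eu]; exact Wdg.map_M h01
  · intro S hS
    rw [Finset.mem_filter] at hS ⊢
    exact ⟨hS.1, fun h => hS.2.2 h.1⟩
  · intro S hS
    rw [Finset.mem_filter] at hS
    simp only [e]
    rw [if_pos hS.2.1, if_neg hS.2.2]
    rfl
  · have h1 := card_Pij (k := n) h01 (by omega)
    rw [Fintype.card_fin] at h1
    rw [← h1, Fintype.card_of_subtype]
    intro S
    rw [Finset.mem_filter]
    exact ⟨fun h => h.2, fun h => ⟨Finset.mem_univ _, h⟩⟩
  · have hex : ∀ T : Finset (Fin (2 * n)), T.card ≤ n → ∀ T' : Finset (Fin (2 * n)),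
        Disjoint T T' → T.card + (T'.card + n - T.card) ≤ 2 * n →
        ∃ S : Ix (Fin (2 * n)) n, T ⊆ S.1 ∧ Disjoint S.1 T' := by
      intro T hT T' hTT' hcard
      have h2 : T ⊆ T'ᶜ := by
        intro x hx
        rw [Finset.mem_compl]
        exact Finset.disjoint_left.mp hTT' hx
      have h3 : n ≤ (T'ᶜ).card := by
        rw [Finset.card_compl, Fintype.card_fin]
        omega
      obtain ⟨S, hS1, hS2, hS3⟩ := Finset.exists_subsuperset_card_eq h2 hT h3
      refine ⟨⟨S, hS3⟩, hS1, ?_⟩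
      rw [Finset.disjoint_left]
      intro x hx hx'
      exact (Finset.mem_compl.mp (hS2 hx)) hx'
    have himg : (((Finset.univ.filter fun S : Ix (Fin (2 * n)) n => ¬ (i1 ∈ S.1 ∧ i0 ∉ S.1)) \
        (Finset.univ.filter fun S : Ix (Fin (2 * n)) n => i0 ∈ S.1 ∧ i1 ∉ S.1)).image e) =
        {0, 2} := by
      ext z
      rw [Finset.mem_image, Finset.mem_insert, Finset.mem_singleton]
      constructor
      · rintro ⟨S, hS, rfl⟩
        rw [Finset.mem_sdiff, Finset.mem_filter, Finset.mem_filter] at hS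
        obtain ⟨⟨-, h1⟩, h2⟩ := hS
        simp only [e]
        by_cases a0 : i0 ∈ S.1 <;> by_cases a1 : i1 ∈ S.1
        · right; rw [if_pos a0, if_pos a1]; rfl
        · exact absurd ⟨Finset.mem_univ _, a0, a1⟩ h2
        · exact absurd ⟨a1, a0⟩ h1
        · left; rw [if_neg a0, if_neg a1]; rfl
      · have c2 : ({i0, i1} : Finset (Fin (2 * n))).card = 2 := Finset.card_pair h01
        rintro (rfl | rfl)
        · obtain ⟨S, -, hS⟩ := hex ∅ (by simp) {i0, i1} (Finset.disjoint_empty_left _)
            (by rw [c2]; simp; omega)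
          rw [Finset.disjoint_left] at hS
          have a0 : i0 ∉ S.1 := fun h => hS h (by simp)
          have a1 : i1 ∉ S.1 := fun h => hS h (by simp)
          refine ⟨S, ?_, ?_⟩
          · rw [Finset.mem_sdiff, Finset.mem_filter, Finset.mem_filter]
            exact ⟨⟨Finset.mem_univ _, fun h => a1 h.1⟩, fun h => a0 h.2.1⟩
          · simp only [e]
            rw [if_neg a0, if_neg a1]
            rfl
        · obtain ⟨S, hS, -⟩ := hex {i0, i1} (by rw [c2]; omega) ∅
            (Finset.disjoint_empty_right _) (by rw [c2]; simp; omega)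
          have a0 : i0 ∈ S.1 := hS (by simp)
          have a1 : i1 ∈ S.1 := hS (by simp)
          refine ⟨S, ?_, ?_⟩
          · rw [Finset.mem_sdiff, Finset.mem_filter, Finset.mem_filter]
            exact ⟨⟨Finset.mem_univ _, fun h => h.2 a0⟩, fun h => h.2.2 a1⟩
          · simp only [e]
            rw [if_pos a0, if_pos a1]
            rfl
    rw [himg]
    rfl

end final

end OR.FW

namespace OR

/-- FW: the exterior power of degree `n` of the standard representation of `GL_2n`, `n` even. -/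
theorem hasOrth_wedge (K : Type*) [Field K] [CharZero K] {n : ℕ} (hn : Even n) (hn4 : 4 ≤ n) :
    HasOrth K ((2 * n - 2).choose (n - 1)) 1 ((2 * n).choose n) ∧
    HasOrth K ((2 * n - 2).choose (n - 1)) 2 ((2 * n).choose n) := by
  have h01 : (⟨0, by omega⟩ : Fin (2 * n)) ≠ ⟨1, by omega⟩ := by
    intro h; exact absurd (congrArg Fin.val h) (by simp)
  have hcard : Fintype.card (TR.W3.Ix (Fin (2 * n)) n) = (2 * n).choose n := by
    rw [Fintype.card_finset_len, Fintype.card_fin]
  exact ⟨⟨TR.W3.Ix (Fin (2 * n)) n, inferInstance, inferInstance, TR.W3.Jw K n,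
      GenG (TR.W3.Lam K (Fin (2 * n)) n), TR.W3.M K n ⟨0, by omega⟩ ⟨0, by omega⟩, hcard,
      FW.isOrthPair K hn _, FW.bad_one K (by omega) h01, FW.not_containsSO K hn hn4⟩,
    ⟨TR.W3.Ix (Fin (2 * n)) n, inferInstance, inferInstance, TR.W3.Jw K n,
      GenG (TR.W3.Lam K (Fin (2 * n)) n), TR.W3.M K n ⟨0, by omega⟩ ⟨0, by omega⟩, hcard,
      FW.isOrthPair K hn _, FW.bad_two K (by omega) h01, FW.not_containsSO K hn hn4⟩⟩

end OR
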